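import Pool.Agent.Q260.SL.Stm2
import Pool.Agent.Q24.DJ.Com

/-! # Project SL, job DA: forwards, values `a` -/

set_option autoImplicit false

namespace Pool.Agent.Q96.SL

open Complex Filter Topology Metric Set
open Pool.Agent.Q260.DJ (Cl NZ Ok EE)
open Pool.Agent.Q260.SL
open Pool.Agent.Q24.DJ (ok_near nz_mono one_le_log log_half log_double log_small ee_le)

/-- `1 / δ ≤ (log T)^(1/2)`-type bound: `δ * log T` is large. -/
lemma dl_large {C T δ : ℝ} (hC : 1 ≤ C) (hT : 3 ≤ T) (h : Ok C T δ) : C ≤ δ * Real.log T := by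
  obtain ⟨h1, h2, h3⟩ := h
  have hL := one_le_log hT
  have e1 : Real.log T ^ (δ / C) ≤ Real.log T ^ (1 : ℝ) := by
    apply Real.rpow_le_rpow_of_exponent_le hL
    rw [div_le_one (by linarith)]
    linarith
  rw [Real.rpow_one] at e1
  have e2 : C / δ ^ 3 ≤ Real.log T := h3.trans e1
  rw [div_le_iff₀ (by positivity)] at e2
  have e3 : δ ^ 3 ≤ 1 * δ := by
    have : δ ^ 2 ≤ 1 := by nlinarith
    nlinarith
  nlinarith

theorem t_DA (_h1 : S_ZA) (h2 : S_LZ) (h3 : S_DZ) : S_DA := by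
  intro k a X
  obtain ⟨C3, T3, hC3, hT3, h4⟩ := h3 k (X + 4)
  obtain ⟨C2, T2, hC2, hT2, h5⟩ := h2 k
  refine ⟨8 * (C3 + C2) + 8 * ‖a‖ + 8, max (max T3 (2 * T2)) (max 6 (2 * X)), ?_,
    hT3.trans ((le_max_left _ _).trans (le_max_left _ _)), ?_⟩
  · have := norm_nonneg a
    linarith
  intro T θ δ hT hθ hθ1 hok hnz
  have ha := norm_nonneg a
  have a1 : T3 ≤ T := ((le_max_left _ _).trans (le_max_left _ _)).trans hT
  have a2 : 2 * T2 ≤ T := ((le_max_right _ _).trans (le_max_left _ _)).trans hT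
  have a4 : 6 ≤ T := ((le_max_left _ _).trans (le_max_right _ _)).trans hT
  have a3 : 2 * X ≤ T := ((le_max_right _ _).trans (le_max_right _ _)).trans hT
  have hδ := hok.1
  have hδ2 := hok.2.1
  have hC3δ : 0 ≤ C3 * δ := mul_nonneg (by linarith) hδ.le
  have hC2δ : 0 ≤ C2 * δ := mul_nonneg (by linarith) hδ.le
  have haδ : 0 ≤ ‖a‖ * δ := mul_nonneg ha hδ.le
  have hC3d : 0 ≤ (C3 - 1) * δ := mul_nonneg (by linarith) hδ.le
  have hC2d : 0 ≤ (C2 - 1) * δ := mul_nonneg (by linarith) hδ.le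
  have hok3 : Ok C3 T δ := ok_near hC3 (by linarith) a4 (by linarith) hok
  have hnz2 : NZ (Zk k) (θ + C3 * δ) T (X + 4) := by
    refine h4 T θ δ a1 hθ (by nlinarith) hok3 (nz_mono hnz le_rfl ?_)
    rw [sub_self, abs_zero, zero_add]
    linarith
  intro z hz1 hz2 hz3 h0
  have hz4 : T / 2 ≤ z.im := by linarith [(abs_le.1 hz3).1]
  have hz5 : 3 ≤ z.im := by linarith
  -- `Ok` at the height of `z`
  have hok' : Ok (4 * (C3 + C2) + 4 * ‖a‖ + 4) z.im δ :=
    ok_near (by linarith) (by linarith) a4 hz4 hok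
  have hEE := ee_le (C1 := C2) hC2 (by linarith) hz5 hok'
  have hdl := dl_large (by linarith) hz5 hok'
  have hL := one_le_log hz5
  have hlz := h5 z.im (θ + C3 * δ) δ (by linarith) (by linarith) (by nlinarith) hδ hδ2
    (nz_mono hnz2 le_rfl (by linarith)) z rfl (by nlinarith) (by linarith)
  obtain ⟨q1, q2, q3⟩ := hlz
  have hz6 : 8 * δ ≤ z.re := by nlinarith
  have q4 := (abs_le.1 q2).1
  have q5 : C2 / (4 * (C3 + C2) + 4 * ‖a‖ + 4) ≤ 1 := by
    rw [div_le_one (by linarith)]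
    linarith
  have hdL : 0 < δ * Real.log z.im := mul_pos hδ (by linarith)
  have q6 : C2 / (4 * (C3 + C2) + 4 * ‖a‖ + 4) * δ * Real.log z.im ≤ 1 * (δ * Real.log z.im) := by
    rw [mul_assoc]
    exact mul_le_mul_of_nonneg_right q5 hdL.le
  have q7 : Real.log z.im * z.re ≥ 8 * (δ * Real.log z.im) := by
    have := mul_le_mul_of_nonneg_left hz6 (by linarith : 0 ≤ Real.log z.im)
    linarith
  have q8 : ‖a‖ < Real.log ‖Zk k z‖ := by linarith
  have hzk : Zk k z = -a := by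
    unfold Za at h0
    exact eq_neg_of_add_eq_zero_left h0
  rw [hzk, norm_neg] at q8
  have q9 : Real.log ‖a‖ ≤ ‖a‖ := Real.log_le_self ha
  linarith

end Pool.Agent.Q96.SL
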