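import Pool.Agent.Q260.SL.Stm2
import Pool.Agent.Q24.DJ.DI

/-! # Project SL, jobs DIA and RAA: the dictionary and the rate, for all values -/

set_option autoImplicit false

namespace Pool.Agent.Q96.SL

open Complex Filter Topology Metric Set
open Pool.Agent.Q260.DJ (Cl NZ Ok EE)
open Pool.Agent.Q260.SL
open Pool.Agent.H24R2.JP (HH XX Om)
open Pool.Agent.Q24.DJ (ok_near nz_mono one_le_log log_half log_double log_small ee_le ok_const
  lll_small)

/-- The zeros of `XX` and of `Zk 0` in the upper half plane agree. -/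
lemma xx_iff (h1 : S_ZA) (h2 : S_HM) {z : ℂ} (hz : 0 < z.im) : XX z = 0 ↔ Zk 0 z = 0 := by
  rw [h1.2.1 z hz]
  unfold Gk
  rw [mul_eq_zero]
  exact or_iff_left (h2.1 z hz).1

theorem t_DIA (h1 : S_ZA) (h2 : S_HM) (_h3 : S_CG) (h4 : S_UA) (h5 : S_DA) (h6 : S_FLR) :
    S_DIA := by
  intro k a ε hε
  obtain ⟨C1, T1, hC1, hT1, hU⟩ := h4 k a 0
  obtain ⟨C2, T2, hC2, hT2, hD⟩ := h5 k a 0
  obtain ⟨T5, hT5, hF⟩ := h6 k (‖a‖ + 1)
  obtain ⟨δ, hδd⟩ : ∃ δ : ℝ, δ = min (1 / 2) (min ε (1 / 2) / (2 * (C1 + C2))) := ⟨_, rfl⟩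
  have hε2 : 0 < min ε (1 / 2) := lt_min hε (by norm_num)
  have hδ : 0 < δ := by
    rw [hδd]
    apply lt_min (by norm_num)
    positivity
  have hδ1 : δ ≤ 1 / 2 := by rw [hδd]; exact min_le_left _ _
  have hδ2 : (C1 + C2) * δ ≤ min ε (1 / 2) / 2 := by
    have h7 : δ ≤ min ε (1 / 2) / (2 * (C1 + C2)) := by rw [hδd]; exact min_le_right _ _
    calc (C1 + C2) * δ ≤ (C1 + C2) * (min ε (1 / 2) / (2 * (C1 + C2))) :=
          mul_le_mul_of_nonneg_left h7 (by linarith)
      _ = min ε (1 / 2) / 2 := by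
          have : C1 + C2 ≠ 0 := by positivity
          field_simp
  have hm1 : min ε (1 / 2) ≤ ε := min_le_left _ _
  have hm2 : min ε (1 / 2) ≤ 1 / 2 := min_le_right _ _
  obtain ⟨T3, hT3, h7⟩ := ok_const hC1 hδ hδ1
  obtain ⟨T4, hT4, h8⟩ := ok_const hC2 hδ hδ1
  have hC1δ : 0 < C1 * δ := by positivity
  have hC2δ : 0 < C2 * δ := by positivity
  have hCd : 0 < C1 / δ := by positivity
  refine ⟨C1 / δ + C1 + C2, max (max T1 T2) (max (max T3 T4) (max T5 (2 * (C1 + C2 + 3)))),
    by linarith, hT1.trans ((le_max_left _ _).trans (le_max_left _ _)), ?_, ?_⟩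
  · intro z σ hz hT hσ hσz
    have a1 : T1 ≤ z.im := ((le_max_left _ _).trans (le_max_left _ _)).trans hT
    have a3 : T3 ≤ z.im :=
      (((le_max_left _ _).trans (le_max_left _ _)).trans (le_max_right _ _)).trans hT
    have hre := Pool.Agent.H24R2.JP.Zer.re_le z hz
    have hz0 : 0 < z.im := by linarith
    by_contra hcon
    push Not at hcon
    have hnz : NZ (Za k a) σ z.im (C1 / δ) := by
      intro w hw1 hw2 hw3 hw0
      have := hcon w hw0 hw1 hw2
      linarith
    have h9 := hU z.im σ δ a1 hσ (by nlinarith) (h7 z.im a3) hnz z (by nlinarith) (by linarith)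
      (by simp)
    exact h9 ((xx_iff h1 h2 hz0).1 hz)
  · intro z σ hz hT hσ hσz
    have a2 : T2 ≤ z.im := ((le_max_right _ _).trans (le_max_left _ _)).trans hT
    have a4 : T4 ≤ z.im :=
      (((le_max_right _ _).trans (le_max_left _ _)).trans (le_max_right _ _)).trans hT
    have a5 : T5 ≤ z.im :=
      (((le_max_left _ _).trans (le_max_right _ _)).trans (le_max_right _ _)).trans hT
    have a6 : 2 * (C1 + C2 + 3) ≤ z.im :=
      (((le_max_right _ _).trans (le_max_right _ _)).trans (le_max_right _ _)).trans hT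
    have hz1 : z.re < 1 := by
      by_contra hge
      push Not at hge
      have h9 := hF z hge a5
      have h10 : Zk k z = -a := by
        unfold Za at hz
        exact eq_neg_of_add_eq_zero_left hz
      rw [h10, norm_neg] at h9
      linarith
    by_contra hcon
    push Not at hcon
    have hnz : NZ (Zk 0) σ z.im C2 := by
      intro w hw1 hw2 hw3 hw0
      have hwi : 0 < w.im := by linarith [(abs_le.1 hw3).1]
      have := hcon w ((xx_iff h1 h2 hwi).2 hw0) hw1
      linarith
    have hnz' : NZ (Zk 0) (min σ (1 / 2)) z.im C2 := by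
      intro w hw1 hw2 hw3 hw0
      rcases lt_or_ge σ w.re with h | h
      · exact hnz w h hw2 hw3 hw0
      · have hwi : 0 < w.im := by linarith [(abs_le.1 hw3).1]
        have h10 := Pool.Agent.H24R2.JP.Zer.re_le w ((xx_iff h1 h2 hwi).2 hw0)
        rcases min_lt_iff.1 hw1 with h11 | h11
        · linarith
        · linarith
    have h9 := hD z.im (min σ (1 / 2)) δ a2 (le_min hσ (by norm_num))
      (by have := min_le_right σ (1 / 2 : ℝ); nlinarith) (h8 z.im a4) hnz' z
      (by have := min_le_left σ (1 / 2 : ℝ); nlinarith) (by linarith) (by simp)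
    exact h9 hz

end Pool.Agent.Q96.SL
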