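import Pool.Agent.Q96.SL.DIA

/-! # Project SL, job RAA: the rate -/

set_option autoImplicit false

namespace Pool.Agent.Q96.SL

open Complex Filter Topology Metric Set
open Pool.Agent.Q260.DJ (Cl NZ Ok EE)
open Pool.Agent.Q260.SL
open Pool.Agent.H24R2.JP (HH XX Om)
open Pool.Agent.Q24.DJ (ok_near nz_mono one_le_log log_half log_double log_small ee_le ok_const
  lll_small)

theorem t_RAA (h1 : S_ZA) (h2 : S_HM) (h : S_UA) : S_RAA := by
  intro k av T1 hfree
  obtain ⟨C1, T0, hC1, hT0, hup⟩ := h k av 0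
  obtain ⟨T2, hT2, h3⟩ := lll_small (1 / (20 * C1 ^ 2)) (by positivity)
  obtain ⟨T3, hT3, h4⟩ := log_small C1 (by linarith)
  have hC0 : 0 < C1 := by linarith
  refine ⟨max (10 * C1 ^ 2) (max (max T0 T2) (max T3 (2 * T1))),
    lt_of_lt_of_le (by positivity : (0 : ℝ) < 10 * C1 ^ 2) (le_max_left _ _), ?_⟩
  -- the bound on one side
  have key : ∀ z : ℂ, XX z = 0 →
      max (10 * C1 ^ 2) (max (max T0 T2) (max T3 (2 * T1))) ≤ z.im →
      z.re ≤ max (10 * C1 ^ 2) (max (max T0 T2) (max T3 (2 * T1))) *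
        (Real.log (Real.log (Real.log z.im)) / Real.log (Real.log z.im)) := by
    intro z hz hT
    have hT' : max (max T0 T2) (max T3 (2 * T1)) ≤ z.im := (le_max_right _ _).trans hT
    have a0 : T0 ≤ z.im := ((le_max_left _ _).trans (le_max_left _ _)).trans hT'
    have a2 : T2 ≤ z.im := ((le_max_right _ _).trans (le_max_left _ _)).trans hT'
    have a3 : T3 ≤ z.im := ((le_max_left _ _).trans (le_max_right _ _)).trans hT'
    have a4 : 2 * T1 ≤ z.im := ((le_max_right _ _).trans (le_max_right _ _)).trans hT'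
    obtain ⟨q1, q2, q3⟩ := h3 z.im a2
    obtain ⟨a, ha⟩ : ∃ a : ℝ, a = Real.log (Real.log z.im) := ⟨_, rfl⟩
    obtain ⟨b, hb⟩ : ∃ b : ℝ, b = Real.log a := ⟨_, rfl⟩
    rw [← ha] at q1 q2 q3
    rw [← hb] at q1 q3
    rw [← ha, ← hb]
    have ha0 : 0 < a := by linarith
    have hb0 : 0 < b := by linarith
    have hba : 0 ≤ b / a := by positivity
    have hlog := one_le_log (T := z.im) (by linarith)
    obtain ⟨δ, hδd⟩ : ∃ δ : ℝ, δ = 10 * C1 * (b / a) := ⟨_, rfl⟩
    have hδ : 0 < δ := by rw [hδd]; positivity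
    have hδ2 : C1 * δ ≤ 1 / 2 := by
      calc C1 * δ = 10 * C1 ^ 2 * (b / a) := by rw [hδd]; ring
        _ ≤ 10 * C1 ^ 2 * (1 / (20 * C1 ^ 2)) := mul_le_mul_of_nonneg_left q3 (by positivity)
        _ = 1 / 2 := by field_simp; norm_num
    have hδ1 : δ ≤ 1 / 2 := by nlinarith
    have hok : Ok C1 z.im δ := by
      refine ⟨hδ, hδ1, ?_⟩
      have e1 : Real.log z.im ^ (δ / C1) = a ^ 10 := by
        rw [Real.rpow_def_of_pos (by linarith), ← ha, hδd]
        have e2 : a * (10 * C1 * (b / a) / C1) = 10 * b := by field_simp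
        rw [e2, hb, show (10 : ℝ) * Real.log a = Real.log (a ^ 10) by
          rw [Real.log_pow]; norm_num, Real.exp_log (by positivity)]
      rw [e1]
      have e3 : C1 / δ ^ 3 ≤ a ^ 3 := by
        rw [div_le_iff₀ (by positivity)]
        have e4 : a ^ 3 * δ ^ 3 = (10 * C1 * b) ^ 3 := by
          rw [← mul_pow, hδd]
          congr 1
          field_simp
        rw [e4]
        have e5 : C1 ≤ 10 * C1 * b := by nlinarith
        have e6 : 1 ≤ 10 * C1 * b := by nlinarith
        calc C1 ≤ 10 * C1 * b := e5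
          _ = (10 * C1 * b) ^ 1 := (pow_one _).symm
          _ ≤ (10 * C1 * b) ^ 3 := pow_le_pow_right₀ e6 (by norm_num)
      exact e3.trans (pow_le_pow_right₀ q2 (by norm_num))
    -- the width is at most `T / 2`
    have hwid : C1 / δ ≤ z.im / 2 := by
      have e7 : C1 / δ = a / (10 * b) := by
        rw [hδd]
        field_simp
      have e8 : a / (10 * b) ≤ a := by
        rw [div_le_iff₀ (by positivity)]
        nlinarith
      have e9 : a ≤ Real.log z.im := by
        rw [ha]
        exact Real.log_le_self (by linarith)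
      have e10 := h4 z.im a3
      have e11 : Real.log z.im ≤ C1 * Real.log z.im := by nlinarith
      rw [e7]
      linarith
    have hnz : NZ (Za k av) 0 z.im (C1 / δ) := by
      intro w hw1 hw2 hw3
      apply hfree w hw1
      have h4 := (abs_le.1 hw3).1
      linarith
    have hfin := hup z.im 0 δ a0 le_rfl (by linarith) hok hnz
    by_contra hcon
    push Not at hcon
    have hz0 : 0 < z.im := by linarith
    refine hfin z ?_ ?_ (by simp) ((xx_iff h1 h2 hz0).1 hz)
    · calc 0 + C1 * δ = 10 * C1 ^ 2 * (b / a) := by rw [hδd]; ring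
        _ ≤ max (10 * C1 ^ 2) (max (max T0 T2) (max T3 (2 * T1))) * (b / a) :=
            mul_le_mul_of_nonneg_right (le_max_left _ _) hba
        _ < z.re := hcon
    · have := Pool.Agent.H24R2.JP.Zer.re_le z hz
      linarith
  intro z hz hT
  rw [abs_le]
  refine ⟨?_, key z hz hT⟩
  have hz2 : XX (-(starRingEnd ℂ) z) = 0 := by
    rw [Pool.Agent.H24R2.JP.B1h.XX_neg, Pool.Agent.H24R2.JP.B1h.XX_conj, hz, map_zero]
  have e : (-(starRingEnd ℂ) z).im = z.im := by simp
  have h5 := key (-(starRingEnd ℂ) z) hz2 (by rw [e]; exact hT)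
  rw [e] at h5
  simp only [neg_re, conj_re] at h5
  linarith

end Pool.Agent.Q96.SL
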