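import Pool.Agent.Q260.SL.Stm2
import Pool.Agent.Q24.DJ.Com

/-! # Project SL, job UA: backwards, values `a` -/

set_option autoImplicit false

namespace Pool.Agent.Q96.SL

open Complex Filter Topology Metric Set
open Pool.Agent.Q260.DJ (Cl NZ Ok EE)
open Pool.Agent.Q260.SL
open Pool.Agent.Q24.DJ (ok_near nz_mono one_le_log log_half log_double log_small)

/-- `1 / δ` is at most `log T` times a constant. -/
lemma inv_le {C T δ : ℝ} (hC : 1 ≤ C) (hT : 3 ≤ T) (h : Ok C T δ) : 1 / δ ≤ Real.log T := by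
  obtain ⟨h1, h2, h3⟩ := h
  have hL := one_le_log hT
  have e1 : Real.log T ^ (δ / C) ≤ Real.log T ^ (1 : ℝ) := by
    apply Real.rpow_le_rpow_of_exponent_le hL
    rw [div_le_one (by linarith)]
    linarith
  rw [Real.rpow_one] at e1
  have e2 : 1 / δ ≤ C / δ ^ 3 := by
    rw [div_le_div_iff₀ h1 (by positivity)]
    have e3 : δ ^ 3 ≤ 1 * δ := by
      have : δ ^ 2 ≤ 1 := by nlinarith
      nlinarith
    nlinarith
  linarith

theorem t_UA (h1 : S_AZ) (h2 : S_UZ) : S_UA := by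
  intro k a X
  obtain ⟨C1, T1, hC1, hT1, h3⟩ := h2 (k + 1) X
  obtain ⟨C2, T2, hC2, hT2, h4⟩ := h1 k a
  obtain ⟨T3, hT3, h5⟩ := log_small (C1 + 4) (by linarith)
  refine ⟨4 * (C1 + C2), max (max T1 (2 * T2)) T3, by linarith,
    hT1.trans ((le_max_left _ _).trans (le_max_left _ _)), ?_⟩
  intro T θ δ hT hθ hθ1 hok hnz
  have a1 : T1 ≤ T := ((le_max_left _ _).trans (le_max_left _ _)).trans hT
  have a2 : 2 * T2 ≤ T := ((le_max_right _ _).trans (le_max_left _ _)).trans hT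
  have a3 : T3 ≤ T := (le_max_right _ _).trans hT
  have a4 : 6 ≤ T := hT3.trans a3
  have hL := one_le_log (T := T) (by linarith)
  have a5 := h5 T a3
  have hδ := hok.1
  have hδ2 := hok.2.1
  have hinv := inv_le (by linarith) (by linarith) hok
  have hC1δ : 0 ≤ C1 * δ := mul_nonneg (by linarith) hδ.le
  have hC2δ : 0 ≤ C2 * δ := mul_nonneg (by linarith) hδ.le
  have hC1d : 0 ≤ (C1 - 1) * δ := mul_nonneg (by linarith) hδ.le
  have hC2d : 0 ≤ (C2 - 1) * δ := mul_nonneg (by linarith) hδ.le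
  have w1 : C1 / δ = C1 * (1 / δ) := by ring
  have w2 : C1 / δ ≤ (C1 + 4) * Real.log T := by
    rw [w1]
    have := mul_le_mul_of_nonneg_left hinv (by linarith : 0 ≤ C1)
    nlinarith
  have w3 : 4 + C1 / δ ≤ 4 * (C1 + C2) / δ := by
    rw [← sub_nonneg]
    have : 4 * (C1 + C2) / δ - (4 + C1 / δ) = (3 * C1 + 4 * C2 - 4 * δ) / δ := by
      field_simp
      ring
    rw [this]
    apply div_nonneg _ hδ.le
    linarith
  have hnz2 : NZ (Zk (k + 1)) (θ + δ) T (C1 / δ) := by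
    intro z hz1 hz2 hz3
    have hz4 : T / 2 ≤ z.im := by linarith [(abs_le.1 hz3).1]
    have hok' : Ok C2 z.im δ := ok_near hC2 (by linarith) a4 hz4 hok
    refine h4 z.im θ δ (by linarith) hθ (by nlinarith) hok' ?_ z rfl hz1.le hz2
    refine nz_mono hnz le_rfl ?_
    linarith
  have hok1 : Ok C1 T δ := ok_near hC1 (by linarith) a4 (by linarith) hok
  have h7 := h3 T (θ + δ) δ a1 (by linarith) (by nlinarith) hok1 hnz2
  refine nz_mono h7 (by nlinarith) ?_
  rw [sub_self, abs_zero, zero_add]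

end Pool.Agent.Q96.SL
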